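import Mathlib
import Pool.Agent.Q303.BL.Dec

/-!
# Beilinson's arithmetic Lefschetz and Hodge index statements for abelian varieties: what they say
about the Beauville decomposition

Let `X` be a smooth projective variety of dimension `n` over the number field `K` with an ample `L`,
whose Chow motive with rational coefficients has a decomposition `h(X) = ⊕ h^j(X)` such that
multiplication by `L` is homogeneous and `L^(n - j) : h^j(X) → h^(2 n - j)(X)(n - j)` is an isomorphism
for all `j ≤ n`. **All abelian varieties** with symmetric `L` are of this kind (Deninger-Murre,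
Künnemann); then `Ch^i(h^(2 i - s)(X)) = Ch^i_(s)(X)` is the Beauville decomposition. `Cycles n` records
the structure of the group `W = ⊕ Ch^i(X)^0` of homologically trivial cycles: the projections `pr i s`
to `part i s = Ch^i(h^(2 i - s)(X))^0`, the operator `L`, hard Lefschetz for each `s`. `Ch0 i` is
`Ch^i(X)^0`.

For fixed `s` the groups `part i s` are symmetric under `i ↦ n + s - i` by hard Lefschetz for
motives, whereas question 1 asks for the symmetry `i ↦ n + 1 - i`. The theorem makes this precise.

**Theorem.**
1. `L^(n + 1 - 2 i) : Ch^i(X)^0 → Ch^(n + 1 - i)(X)^0` is injective for all `i ≤ (n + 1) / 2` if and only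
   if `Ch^i(h^(2 i - s)(X))^0 = 0` for all `i` and all `s ≤ 0`.
2. It is surjective for all `i ≤ (n + 1) / 2` if and only if `Ch^i(h^(2 i - s)(X))^0 = 0` for all `i` and
   all `s ≥ 2`.
3. **Question 1 (for all `i`) has a positive answer for `X`, `L` if and only if
   `Ch^i(X)^0 = Ch^i(h^(2 i - 1)(X))` for all `i`.** (This condition does not depend on `L`.)
4. **Question 2 (for all `i`) has a positive answer if and only if `Ch^i(h^(2 i - s)(X))^0 = 0` for all
   `i` and all `s ≤ 0`, and the inequality of question 2 holds for all `x` in `Ch^i(h^(2 i - 1)(X))^0`.**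
   The only property of the height pairing which is used here is `(x, 0) = 0`.
5. If question 2 (for all `i`) has a positive answer and the height pairing is non-degenerate, then
   question 1 has a positive answer; no finiteness of the Chow groups is assumed. Here one uses
   that the parts `(i, s)` and `(j, t)` are orthogonal unless `i + j = n + 1` and `s + t = 2`
   (for abelian varieties: compare the action of multiplication by an integer).
6. If question 1 has a positive answer then the product of any two homologically trivial cycles is
   zero, for all products which are additive in `i` and `s` (such as the intersection product on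
   abelian varieties).

For an abelian variety `A` over `K`: question 1 for `A` is equivalent to the conjunction of Beauville's
conjecture (`Ch^i_(s)(A) = 0` for `s < 0`), of the injectivity of the cycle map on `Ch^i_(0)(A)`, and
of the vanishing of `Ch^i_(s)(A)` for `s ≥ 2` predicted by Beilinson and Bloch for number fields.
So one abelian variety over a number field with two homologically trivial cycles whose intersection
product is not torsion, or with a non-torsion cycle in `Ch^i_(s)(A)`, `s ≠ 0, 1`, would give a
negative answer to question 1. The part `s < 0` or `s = 0` would also disprove question 2.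
-/

set_option autoImplicit false

universe u

namespace Pool.Agent.Results.MP_e2c9e7_nt.AbelianConcentration

open Pool.Agent.Q303.BL Pool.Agent.Q303.BL.Cycles

/-- **Beilinson's statements for varieties with a Chow-Künneth decomposition satisfying hard
Lefschetz, such as abelian varieties.** -/
theorem result {n : ℤ} (D : Cycles.{u} n) :
    (D.Injective ↔ ∀ s ≤ 0, D.Vanish s) ∧
    (D.Surjective ↔ ∀ s ≥ 2, D.Vanish s) ∧
    (D.Lefschetz ↔ ∀ i, D.Ch0 i = D.part i 1) ∧
    (∀ ht : D.W → D.W → ℝ, (∀ x, ht x 0 = 0) →
      ((∀ i, D.IndexOn ht i (D.Ch0 i)) ↔
        (∀ s ≤ 0, D.Vanish s) ∧ ∀ i, D.IndexOn ht i (D.part i 1))) ∧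
    (∀ ht : D.W → D.W → ℝ, D.IsNondegenerate ht → (∀ i, D.IndexOn ht i (D.Ch0 i)) →
      D.Lefschetz) ∧
    (∀ mul : D.W → D.W → D.W,
      (∀ i s j t, ∀ x ∈ D.part i s, ∀ y ∈ D.part j t, mul x y ∈ D.part (i + j) (s + t)) →
      D.Lefschetz → ∀ i j, ∀ x ∈ D.Ch0 i, ∀ y ∈ D.Ch0 j, mul x y = 0) :=
  ⟨D.injective_iff, D.surjective_iff, D.lefschetz_iff_part, fun _ hz => D.index_iff hz,
    fun _ h hi => D.lefschetz_of_index h hi, fun _ hm hL i j => D.mul_eq_zero hm hL i j⟩

end Pool.Agent.Results.MP_e2c9e7_nt.AbelianConcentration
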