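import Pool.Agent.Q72.HI.Hodge
import Pool.Agent.Q72.HI.GlobalDefs

/-!
# The arithmetic Hodge index conjecture in the middle dimension

`𝒱` is a class of smooth projective varieties over a number field `K` closed under products (for the
problem: the generic fibres of regular arithmetic varieties for which the height pairing is defined),
`C` the Chow groups with rational coefficients (in the form of their formal properties, `IsChowProj`),
`H` a Weil cohomology theory (`IsWeilProj`), `ht X` the Beilinson-Bloch height pairing on the
homologically trivial cycles of `X` (with its formal properties, `IsHeight`), and `Amp X` the set of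
classes of ample line bundles on `X`; the only property used of them is that `f^* L + ξ` is ample on
`X × ℙ^t` for `L` ample (`ξ` the class of a hyperplane).

Theorem. (a) Let `X` have dimension `n`, let `L` be a divisor class, `2 i ≤ n + 1` and
`t = n + 1 - 2 i`. Then `(-1)^i (z, L^t z) > 0` for all homologically trivial `z ≠ 0` of codimension
`i` with `L^(t+1) z = 0` if and only if `(-1)^(i+t) (x, x) > 0` for all homologically trivial `x ≠ 0`
of codimension `i + t` on `P = X × ℙ^t` with `(f^* L + ξ) x = 0` (the middle codimension:
`dim P + 1 = 2 (i + t)`).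
(b) The conjecture Q2 holds for all `(X, L, i)` if and only if for all `X` of odd dimension `2 m - 1`,
all ample `L` and all homologically trivial `x ≠ 0` of codimension `m` with `L x = 0` one has
`(-1)^m (x, x) > 0`.
(c) In this case all maps `L^(n+1-2i) : CH^i(X)^0 → CH^(n+1-i)(X)^0` are injective.
-/

open CategoryTheory AlgebraicGeometry

set_option autoImplicit false

universe u v w

namespace Pool.Agent.Results.MP_e2c9e7_nt.HodgeIndexMiddle

open Pool.Agent.H914 Pool.Agent.W492.BB Pool.Agent.TH133 Pool.Agent.Q72.DP Pool.Agent.Q72.HI

/-- The arithmetic Hodge index conjecture in codimension `i` on `X` is the statement in the middle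
codimension on `X × ℙ^t`, `t = n + 1 - 2 i`; so it is enough to treat the self-pairings `(x, x)` of
the classes of codimension `m` with `L x = 0` on varieties of dimension `2 m - 1`. -/
theorem result {k : Type u} [Field k] {𝒱 : VarClass k} (C : TheoryData.{u, v, 0} 𝒱 ℚ)
    [IsChowProj C] {K : Type w} [Field K] (H : WeilTheoryData.{u, v, w} C K) [IsWeilProj H]
    (ht : ∀ X : 𝒱.Obj, C.A X → C.A X → ℝ) (hh : IsHeight H ht)
    (Amp : ∀ X : 𝒱.Obj, Set (C.A X)) (hA : IsAmpleSystem C Amp) :
    HodgeProduct H ht ∧ (HodgeAll H ht Amp ↔ HodgeMiddle H ht Amp) ∧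
      (HodgeMiddle H ht Amp → LefschetzInjective H Amp) := by
  refine ⟨fun _ _ _ _ _ _ _ h hL hd => hodge_iff hh h hL hd, hodge_all hh hA, ?_⟩
  intro h X L hL i t z hd hz hcl hLz
  have h1 := (hodge_all hh hA).2 h X L hL i (by omega)
  have e : X.dim + 1 - 2 * i = t := by omega
  rw [e] at h1
  exact h1.injective hh hd hz hcl hLz

end Pool.Agent.Results.MP_e2c9e7_nt.HodgeIndexMiddle
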