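import Pool.Agent.Q72.HI.Lef

/-!
# The arithmetic Lefschetz conjecture in the middle dimension

`𝒱` is a class of smooth projective varieties over a number field `K` closed under products (for the
problem: the generic fibres of regular arithmetic varieties), `C` the Chow groups with rational
coefficients (in the form of their formal properties, `IsChowProj`), `H` a Weil cohomology theory
(`IsWeilProj`), and `Amp X` the set of classes of ample line bundles on `X`; the only property used of
them is that `f^* L + ξ` is ample on `X × ℙ^(r-1)` for `L` ample (`ξ` the class of a hyperplane).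

Theorem. (a) For every variety `X`, divisor class `L`, `i ≥ 0` and `r ≥ 1`: the multiplication by
`L^r` is an isomorphism `CH^i(X)^0 → CH^(i+r)(X)^0` on homologically trivial cycles if and only if the
multiplication by `f^* L + ξ` is an isomorphism `CH^(i+r-1)(P)^0 → CH^(i+r)(P)^0`, where
`f : P = X × ℙ^(r-1) → X`. For `r = n + 1 - 2 i`, `n = dim X`, these are the middle codimensions of `P`.
(b) The conjecture Q1 holds for all `(X, L, i)` if and only if for all `X` of even dimension `2 m` and
all ample `L` the multiplication by `L` is an isomorphism `CH^m(X)^0 → CH^(m+1)(X)^0`.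
-/

open CategoryTheory AlgebraicGeometry

set_option autoImplicit false

universe u v w

namespace Pool.Agent.Results.MP_e2c9e7_nt.LefschetzOneStep

open Pool.Agent.H914 Pool.Agent.W492.BB Pool.Agent.TH133 Pool.Agent.Q72.DP Pool.Agent.Q72.HI

/-- The arithmetic Lefschetz conjecture for `L^(n+1-2i)` in codimension `i` on `X` is the statement
for `f^* L + ξ` in the middle codimension on `X × ℙ^(n-2i)`; so it is enough to treat the
multiplication by `L` from codimension `m` to `m + 1` on varieties of dimension `2 m`. -/
theorem result {k : Type u} [Field k] {𝒱 : VarClass k} (C : TheoryData.{u, v, 0} 𝒱 ℚ)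
    [IsChowProj C] {K : Type w} [Field K] (H : WeilTheoryData.{u, v, w} C K) [IsWeilProj H]
    (Amp : ∀ X : 𝒱.Obj, Set (C.A X)) (hA : IsAmpleSystem C Amp) :
    (∀ (X P : 𝒱.Obj) (f : P ⟶ X) (r : ℕ) (ξ : C.A P) (L : C.A X) (i : ℕ),
      IsTrivialBundle C f r ξ → C.Deg 1 L →
        (LefschetzAt H L i r ↔ LefschetzAt H (C.up f L + ξ) (i + r - 1) 1)) ∧
    ((∀ (X : 𝒱.Obj) (L : C.A X), L ∈ Amp X → ∀ i : ℕ, 2 * i ≤ X.dim + 1 →
      LefschetzAt H L i (X.dim + 1 - 2 * i)) ↔
      ∀ (X : 𝒱.Obj) (L : C.A X), L ∈ Amp X → ∀ m : ℕ, X.dim = 2 * m → LefschetzAt H L m 1) :=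
  ⟨fun _ _ _ _ _ _ i h hL => lefschetz_iff h hL i, lefschetz_all hA⟩

end Pool.Agent.Results.MP_e2c9e7_nt.LefschetzOneStep
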