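import Mathlib
import Pool.Agent.Q303.BL.Prod

/-!
# Beilinson's arithmetic Lefschetz and Hodge index statements: products and finite maps

`Var` records the group `W = ⊕ Ch^i(X)^0` of homologically trivial cycles (with rational coefficients) on
a smooth projective variety `X` of dimension `n` over a number field, and the Lefschetz operator `L` of a
polarization. `InjectiveAt i` and `SurjectiveAt i` are the two halves of question 1 for `i`
(`L^(n + 1 - 2 i) : Ch^i(X)^0 → Ch^(n + 1 - i)(X)^0` is injective, surjective), `IndexAt ht i` is question
2 for `i` and the height pairing `ht`.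

`Fibred X Y m d` records the formal properties of the projection `p : X = Y × Z → Y`, where `m = dim Z`, the
polarization of `X` is the tensor product of polarizations of `Y` and `Z`, and `d` is the degree of `Z`; or
those of a finite surjective map `p : X → Y`, where `m = 0`, the polarization of `X` is the inverse image
of the one of `Y` and `d` is the degree of `p`. `LineFibred X Y d` does it for `X = Y × ℙ¹`.
`Heights` records the projection formula for the height pairings.

**Theorem.**
1. Let `X = Y × Z`, or let `X → Y` be a finite surjective map. For each `i ≤ (dim Y + 1) / 2` the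
   injectivity, the surjectivity in question 1 and the positivity in question 2 hold for `Y` and `i`
   if they hold for `X` and the same `i`.
2. **Question 1 for all `i` (each half) is equivalent for `Y` and for `Y × ℙ¹`. If it holds, then
   question 2 for all `i` is equivalent for `Y` and for `Y × ℙ¹`.** (So both questions for `Y`, `L` are
   equivalent to both questions for `Y × (ℙ¹)^r` with the product polarizations.)

So question 1 and question 2 can be reduced to varieties of arbitrarily large dimension, of any given
parity of the dimension, and they are inherited by all factors, quotients by finite groups and images under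
finite maps; a counterexample `Y` gives counterexamples `Y × Z` for all `Z`. For example the positivity
in question 2 for `i = 1` on `Y × Z` implies the one on `Y`.

For the converse in part 2 one has to find the primitive decomposition of the tensor product of a Lefschetz
module with the one of `ℙ¹`: a primitive class on `Y × ℙ¹` is `p^* (a₀ + L a₁) - (k + 1) h p^* a₁` with
primitive `a₀`, `a₁`, and the form is `k (a₀, L^(k - 1) a₀) - (k + 2) (a₁, L^(k + 1) a₁)`.
-/

set_option autoImplicit false

universe u

namespace Pool.Agent.Results.MP_e2c9e7_nt.ProductsAndFiniteMaps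

open Pool.Agent.Q303.BL Pool.Agent.Q303.BL.Var

/-- **Beilinson's statements are inherited by factors and images under finite maps, and they are
equivalent for `Y` and `Y × ℙ¹`.** -/
theorem result :
    (∀ (X Y : Var.{u}) (m : ℕ) (d : ℚ) (P : Fibred X Y m d) (i : ℤ),
      (X.InjectiveAt i → Y.InjectiveAt i) ∧ (X.SurjectiveAt i → Y.SurjectiveAt i) ∧
      ∀ (htX : X.W → X.W → ℝ) (htY : Y.W → Y.W → ℝ), P.Heights htX htY →
        X.IndexAt htX i → Y.IndexAt htY i) ∧
    (∀ (X Y : Var.{u}) (d : ℚ) (P : LineFibred X Y d),
      ((∀ i, X.InjectiveAt i) ↔ ∀ i, Y.InjectiveAt i) ∧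
      ((∀ i, X.SurjectiveAt i) ↔ ∀ i, Y.SurjectiveAt i) ∧
      ∀ (htX : X.W → X.W → ℝ) (htY : Y.W → Y.W → ℝ), P.Heights htX htY →
        (∀ i, Y.InjectiveAt i) → (∀ i, Y.SurjectiveAt i) →
          ((∀ i, X.IndexAt htX i) ↔ ∀ i, Y.IndexAt htY i)) :=
  ⟨fun _ _ _ _ P _ => ⟨P.injectiveAt, P.surjectiveAt, fun _ _ H h => P.indexAt H h⟩,
    fun _ _ _ P => ⟨⟨fun h i => P.toFibred.injectiveAt (h i), P.injectiveAt⟩,
      ⟨fun h i => P.toFibred.surjectiveAt (h i), P.surjectiveAt⟩,
      fun _ _ H hI hS => ⟨fun h i => P.toFibred.indexAt H (h i),
        fun h i => P.indexAt H hI hS h i⟩⟩⟩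

end Pool.Agent.Results.MP_e2c9e7_nt.ProductsAndFiniteMaps
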